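import Pool.Agent.H846.Hdt.Defs
import Pool.Graph.R_pool_sql_team_seeded_1acbe0a2.Y140.Gen.Defs

/-!
# Varieties which specialise to varieties with algebraic cohomology: definitions
-/

open CategoryTheory AlgebraicGeometry

universe u v

namespace Pool.Agent.H846.Alt

open Pool.Agent.H914 Pool.Agent.H914.VarClass Pool.Agent.H914.VarClass.Obj
  Pool.Agent.H281R3.HT Pool.Agent.H846.Det Pool.Agent.H846.Hdt

variable {k : Type u} [Field k] {𝒱 : VarClass k} {ops : CycleOps 𝒱}

/-- The products of members of the class `𝒮` of polarized varieties, with any number of factors.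
The polarization of `P × Q` is the sum of the pull-backs of those of `P` and `Q`. -/
inductive ProductOf (ops : CycleOps 𝒱) (𝒮 : Polarized 𝒱 → Prop) : Polarized 𝒱 → Prop
  | base {P : Polarized 𝒱} (hP : 𝒮 P) : ProductOf ops 𝒮 P
  | prod {P Q : Polarized 𝒱} (hP : ProductOf ops 𝒮 P) (hQ : ProductOf ops 𝒮 Q) :
      ProductOf ops 𝒮 (P.prod ops Q)

/-- The whole cohomology of `X` is spanned, over the coefficient field, by the classes of
algebraic cycles. -/
def SpannedByCycles (W : WeilCohomology.{u, v} ops) (X : 𝒱.Obj) : Prop :=
  ∀ x : W.H X, x ∈ Submodule.span W.K {y | ∃ (j : ℕ) (z : X.Cycles), X.IsCyc j z ∧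
    y = classOf W X z}

/-- The standard conjecture of Hodge type for `P`, for homological equivalence, in all
codimensions. -/
def HodgeHolds (W : WeilCohomology.{u, v} ops) (P : Polarized 𝒱) : Prop :=
  ∀ n, 2 * n ≤ P.X.dim → HomHodgeIn W P n

/-- The algebraic correspondences from `X` to `Y` act as zero on the transcendental cohomology of
`X`, that is on the classes which are orthogonal to all algebraic classes. -/
def KillsTranscendental (W : WeilCohomology.{u, v} ops) (X Y : 𝒱.Obj) : Prop :=
  ∀ (j : ℕ) (z : (X.prod Y).Cycles), (X.prod Y).IsCyc j z → ∀ x : W.H X,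
    (∀ (i : ℕ) (w : X.Cycles), X.IsCyc i w → W.tr X (x * classOf W X w) = 0) →
    corrMap W z x = 0

/-- The products `T 1 × (T 2 × … × (T r × M))`, `r ≥ 0`, of polarized varieties which all satisfy
the hard Lefschetz theorem, the Lefschetz standard conjecture and the standard conjecture of Hodge
type, and such that for each `j` the whole cohomology of `T j` is spanned by the classes of
algebraic cycles, or at least the algebraic correspondences from `T j` to the product of the
following factors act as zero on the transcendental cohomology of `T j`. There is no condition on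
the cohomology of `M`. -/
inductive HodgeProduct (W : WeilCohomology.{u, v} ops) : Polarized 𝒱 → Prop
  | base {M : Polarized 𝒱} (hM : IsLefschetz W M) (h : HodgeHolds W M) : HodgeProduct W M
  | times {T M : Polarized 𝒱} (hT : IsLefschetz W T) (h : HodgeHolds W T)
      (hs : SpannedByCycles W T.X ∨ KillsTranscendental W T.X M.X)
      (hM : HodgeProduct W M) : HodgeProduct W (T.prod ops M)

/-- The cycle `z` of codimension `j` on `X` corresponds at some place to a cycle on a product as
in `HodgeProduct`: there are a polarized variety `P₀` over some field `k₀` (a specialisation of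
`P`, or a lifting, or a variety joined with `P` by a chain of these), a comparison isomorphism of
the cohomology rings, and a cycle `z₀` on `P₀` whose class corresponds to the class of `z`. It is
not assumed that other algebraic cycles correspond to algebraic cycles. -/
def HasHodgePlace (W : WeilCohomology.{u, v} ops) (P : Polarized 𝒱) (j : ℕ)
    (z : P.X.Cycles) : Prop :=
  ∃ (k₀ : Type u) (_ : Field k₀) (𝒱₀ : VarClass k₀) (ops₀ : CycleOps 𝒱₀)
    (W₀ : WeilCohomology.{u, v} ops₀) (P₀ : Polarized 𝒱₀) (σ : CoefIso W W₀)
    (s : CohIso W W₀ P.X P₀.X) (z₀ : P₀.X.Cycles),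
    IsComparison W W₀ P P₀ σ s ∧ HodgeProduct W₀ P₀ ∧ P₀.X.IsCyc j z₀ ∧
      isoMap s (classOf W P.X z) = classOf W₀ P₀.X z₀

/-- The members of the class `𝒮` satisfy the hard Lefschetz theorem and the Lefschetz standard
conjecture, and every algebraic cycle on a product of members of `𝒮` which is not homologically
equivalent to zero corresponds at some place (which may depend on the cycle) to a cycle on a
product as in `HodgeProduct`. -/
structure HasHodgePlaces (W : WeilCohomology.{u, v} ops) (𝒮 : Polarized 𝒱 → Prop) : Prop where
  lefschetz : ∀ P, 𝒮 P → IsLefschetz W P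
  place : ∀ P, ProductOf ops 𝒮 P → ∀ j z, P.X.IsCyc j z → classOf W P.X z ≠ 0 →
    HasHodgePlace W P j z

/-- Some cycle of codimension `i` on `X × X` acts injectively on `H^(2 n - i)(X)`, `n = dim X`. For
`i ≤ 1` this is a known theorem. -/
def HasInjectiveCycle (W : WeilCohomology.{u, v} ops) (X : 𝒱.Obj) (i : ℕ) : Prop :=
  ∃ z, (X.prod X).IsCyc i z ∧ ∀ a ∈ W.gr X (2 * X.dim - i), corrMap W z a = 0 → a = 0

/-- The varieties of a class of polarized varieties. -/
def underlying (𝒮 : Polarized 𝒱 → Prop) : Set 𝒱.Obj := {Y | ∃ P : Polarized 𝒱, 𝒮 P ∧ P.X = Y}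

end Pool.Agent.H846.Alt
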