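import Pool.Agent.H846.Alt.Times
import Pool.Graph.R_pool_sql_team_seeded_1acbe0a2.Y140.Gen.Top
import Pool.Graph.R_seed8.H914R2.LefB

/-!
# The conjecture B for varieties obtained from varieties which specialise to varieties with
algebraic cohomology
-/

open CategoryTheory AlgebraicGeometry Finset

universe u v

namespace Pool.Agent.H846.Alt

open Pool.Agent.H914 Pool.Agent.H914.VarClass Pool.Agent.H914.VarClass.Obj
  Pool.Agent.H914.WeilCohomology Pool.Agent.H281R3.HT Pool.Agent.W552 Pool.Agent.W539.Ker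
  Pool.Agent.W550.B Pool.Agent.Y140.Gen
  Pool.Agent.R911.Iso Pool.Agent.H447 Pool.Agent.H846.Det Pool.Agent.H846.Hdt

variable {k : Type u} [Field k] {𝒱 : VarClass k} {ops : CycleOps 𝒱}
  {W : WeilCohomology.{u, v} ops}

lemma productOf_lefschetz {𝒮 : Polarized 𝒱 → Prop} (h : ∀ P, 𝒮 P → IsLefschetz W P)
    {P : Polarized 𝒱} (hP : ProductOf ops 𝒮 P) : IsLefschetz W P := by
  induction hP with
  | base hP => exact h _ hP
  | prod _ _ ih1 ih2 => exact isLefschetz_prod ih1 ih2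

lemma exists_productOf {𝒮 : Polarized 𝒱 → Prop} {Y : 𝒱.Obj}
    (h : IsProductOf (underlying 𝒮) Y) : ∃ P, ProductOf ops 𝒮 P ∧ P.X = Y := by
  induction h with
  | base hX =>
    obtain ⟨P, hP, rfl⟩ := hX
    exact ⟨P, ProductOf.base hP, rfl⟩
  | prod _ _ ih1 ih2 =>
    obtain ⟨P, hP, rfl⟩ := ih1
    obtain ⟨Q, hQ, rfl⟩ := ih2
    exact ⟨P.prod ops Q, hP.prod hQ, rfl⟩

/-- The standard conjectures of Hodge type and D for the products. -/
theorem hodge_and_d_of_places {𝒮 : Polarized 𝒱 → Prop} (h : HasHodgePlaces W 𝒮)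
    {P : Polarized 𝒱} (hP : ProductOf ops 𝒮 P) : HodgeHolds W P ∧ HomEqNum W P.X := by
  have hL := productOf_lefschetz h.lefschetz hP
  obtain ⟨f, G⟩ := exists_gd hL.isCyc hL.hard hL.std
  have hpos := pos_of_places G (h.place P hP)
  exact ⟨hodge_of_pos G hpos, homEqNum_of_pos G hpos⟩

/-- **The conjecture B.** -/
theorem lefschetzB_of_places {𝒮 : Polarized 𝒱 → Prop} (h : HasHodgePlaces W 𝒮) {X : 𝒱.Obj}
    {D : X.Cycles} (hD : X.IsCyc 1 D) (hHL : HardLefschetz W X D)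
    (hX : ∀ i < X.dim, (∀ x ∈ W.gr X i, Obtained W (underlying 𝒮) X x) ∨
      HasInjectiveCycle W X i) : LefschetzB W X D := by
  have hS : ∀ P ∈ underlying 𝒮, ∃ E, IsLefschetzDivisor W P E := by
    rintro _ ⟨P, hP, rfl⟩
    exact ⟨P.D, (h.lefschetz P hP).isCyc, (h.lefschetz P hP).hard⟩
  have hDS : ∀ Y, IsProductOf (underlying 𝒮) Y → HomEqNum W Y := by
    intro Y hY
    obtain ⟨P, hP, rfl⟩ := exists_productOf (ops := ops) hY
    exact (hodge_and_d_of_places h hP).2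
  apply lefschetzB_of_inj hD hHL
  intro c hc
  rcases Nat.eq_zero_or_pos c with rfl | hc0
  · exact ⟨LinearMap.id, KOp.cast (KOp.id X) (by simp), fun a _ h => h⟩
  · rcases hX (X.dim - c) (by omega) with h1 | ⟨z, hz, hinj⟩
    · exact inj_of_obtained hS hDS hD hHL (by omega) h1
    · refine ⟨_, KOp.gen (p := X.dim - c) (by omega) hz, ?_⟩
      intro a ha h0
      refine hinj a ?_ h0
      rwa [show 2 * X.dim - (X.dim - c) = X.dim + c by omega]

/-- **One cycle for all theories.** -/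
theorem exists_cycle_of_places {𝒮 : Polarized 𝒱 → Prop} (h : HasHodgePlaces W 𝒮) {X : 𝒱.Obj}
    (hn : 1 ≤ X.dim) {D : X.Cycles} (hD : X.IsCyc 1 D) (hHL : HardLefschetz W X D)
    (hX : ∀ i < X.dim, (∀ x ∈ W.gr X i, Obtained W (underlying 𝒮) X x) ∨
      HasInjectiveCycle W X i) :
    ∃ Z, (X.prod X).IsCyc (X.dim - 1) Z ∧ ∀ W' : WeilCohomology.{u, v} ops,
      (∀ i, W'.betti X i = W.betti X i) → HardLefschetz W' X D ∧ InducesLambda W' X D Z := by
  obtain ⟨Z, hZ, hW⟩ := indep_weil hn D hD W hHL (lefschetzB_of_places h hD hHL hX)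
  exact ⟨Z, hZ, fun W' hb => ((hW W').out 2 1).1 hb⟩

end Pool.Agent.H846.Alt
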