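import Pool.Agent.H846.Alt.Defs
import Pool.Agent.H846.Hdt.Main

/-!
# Varieties whose cohomology is spanned by algebraic classes
-/

open CategoryTheory AlgebraicGeometry Finset

universe u v

namespace Pool.Agent.H846.Alt

open Pool.Agent.H914 Pool.Agent.H914.VarClass Pool.Agent.H914.VarClass.Obj
  Pool.Agent.H914.WeilCohomology Pool.Agent.H281R3.HT Pool.Agent.W552 Pool.Agent.W539.Ker
  Pool.Agent.R911.Iso Pool.Agent.H447 Pool.Agent.H846.Det Pool.Agent.H846.Hdt

variable {k : Type u} [Field k] {𝒱 : VarClass k} {ops : CycleOps 𝒱}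
  {W : WeilCohomology.{u, v} ops} {X Y : 𝒱.Obj} {D : X.Cycles} {f : Module.End W.K (W.H X)}
  {E : Y.Cycles} {g : Module.End W.K (W.H Y)}

/-- The form is positive on the nonzero algebraic classes of each codimension. -/
def Pos (W : WeilCohomology.{u, v} ops) (X : 𝒱.Obj) (D : X.Cycles)
    (f : Module.End W.K (W.H X)) : Prop :=
  ∀ l, ∀ c ∈ algClasses W X l, c ≠ 0 → ∃ q : ℚ, 0 < q ∧ bf W X D f c c = q

/-- Positivity on all algebraic classes. -/
theorem Pos.AS (G : Gd W X D f) (h : Pos W X D f) {c : W.H X} (hc : AS W X c) (hc0 : c ≠ 0) :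
    ∃ q : ℚ, 0 < q ∧ bf W X D f c c = q := by
  have key : ∀ j, ∃ q : ℚ, 0 ≤ q ∧ (proj (W.isInternal X) (2 * j) c ≠ 0 → 0 < q) ∧
      bf W X D f (proj (W.isInternal X) (2 * j) c) (proj (W.isInternal X) (2 * j) c) = q := by
    intro j
    by_cases h0 : proj (W.isInternal X) (2 * j) c = 0
    · exact ⟨0, le_rfl, fun h => absurd h0 h, by rw [h0]; simp⟩
    · obtain ⟨q, hq, hq'⟩ := h j _ (hc.proj j) h0
      exact ⟨q, hq.le, fun _ => hq, hq'⟩
  choose q hq0 hq1 hq using key
  have hsum := Fr.AS_sum hc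
  refine ⟨∑ j ∈ Finset.range (X.dim + 1), q j, ?_, ?_⟩
  · have hex : ∃ j ∈ Finset.range (X.dim + 1), proj (W.isInternal X) (2 * j) c ≠ 0 := by
      by_contra h0
      push Not at h0
      apply hc0
      rw [hsum, Finset.sum_eq_zero h0]
    obtain ⟨j, hj, hj0⟩ := hex
    exact Finset.sum_pos' (fun j _ => hq0 j) ⟨j, hj, hq1 j hj0⟩
  · have h1 : bf W X D f c c = bf W X D f
        (∑ j ∈ Finset.range (X.dim + 1), proj (W.isInternal X) (2 * j) c)
        (∑ j ∈ Finset.range (X.dim + 1), proj (W.isInternal X) (2 * j) c) := by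
      rw [← hsum]
    rw [h1, map_sum (bf W X D f), LinearMap.sum_apply, Rat.cast_sum]
    apply Finset.sum_congr rfl
    intro j hj
    rw [map_sum, Finset.sum_eq_single j, hq]
    · intro i _ hi
      exact G.fr.bf_deg (proj_mem _ _ _) (proj_mem _ _ _) (by omega)
    · intro h0; exact absurd hj h0

/-- From the standard conjecture of Hodge type. -/
theorem pos_of_hodge {P : Polarized 𝒱} {f : Module.End W.K (W.H P.X)} (G : Gd W P.X P.D f)
    (h : HodgeHolds W P) : Pos W P.X P.D f := by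
  intro l c hc hc0
  refine bf_pos_codim G.fr (l := P.X.dim) (j := l) (Or.inr (by omega)) ?_ hc hc0
  intro n _ hn z hz hz0
  exact h n hn z hz hz0

/-- The standard conjecture of Hodge type from the positivity. -/
theorem hodge_of_pos {P : Polarized 𝒱} {f : Module.End W.K (W.H P.X)} (G : Gd W P.X P.D f)
    (h : Pos W P.X P.D f) : HodgeHolds W P := by
  intro n hn z hz hz0
  obtain ⟨q, hq, hq'⟩ := h n (W.cl P.X z) ⟨z, hz.1, rfl⟩ hz0
  have h1 := bf_same G.fr hn hz hz (j := 0) (Nat.zero_le _)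
  simp only [pow_zero, Module.End.one_apply, Nat.factorial_zero, Nat.cast_one, one_mul,
    Nat.sub_zero] at h1
  rw [hq'] at h1
  have h2 : q = ((P.X.dim - 2 * n).factorial : ℚ)⁻¹ * pairing ops P.X P.D n z z := by
    exact_mod_cast h1
  have hc : (0 : ℚ) < ((P.X.dim - 2 * n).factorial : ℚ)⁻¹ := by positivity
  rw [h2] at hq
  exact (pos_iff_pos_of_mul_pos hq).1 hc

/-- Numerically trivial cycles are homologically trivial. -/
theorem homEqNum_of_pos (G : Gd W X D f) (h : Pos W X D f) : HomEqNum W X := by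
  intro j hj z hz hnum
  by_contra h0
  obtain ⟨q, hq, hq'⟩ := h j (W.cl X z) ⟨z, hz, rfl⟩ h0
  have h1 := bf_of_numZero G hj hz hnum (AS.of (W := W) ⟨z, hz, rfl⟩)
  rw [hq'] at h1
  exact hq.ne' (by exact_mod_cast h1)

/-- **An orthogonal basis of the algebraic classes.** -/
theorem exists_orth (G : Gd W X D f) (h : Pos W X D f) :
    ∃ (m : ℕ) (e : Fin m → W.H X) (q : Fin m → ℚ), (∀ a, AS W X (e a)) ∧ (∀ a, 0 < q a) ∧
      ∀ x y, AS W X y →
        bf W X D f (x - ∑ a, (bf W X D f x (e a) * ((q a : W.K)⁻¹)) • e a) y = 0 := by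
  classical
  let Q : ℕ → Prop := fun m => ∃ e : Fin m → W.H X, (∀ a, ∃ j, e a ∈ algClasses W X j) ∧
    (∀ a, e a ≠ 0) ∧ ∀ a b, a ≠ b → bf W X D f (e a) (e b) = 0
  have hli : ∀ m, ∀ e : Fin m → W.H X, (∀ a, ∃ j, e a ∈ algClasses W X j) → (∀ a, e a ≠ 0) →
      (∀ a b, a ≠ b → bf W X D f (e a) (e b) = 0) → LinearIndependent W.K e := by
    intro m e h1 h2 h3
    rw [Fintype.linearIndependent_iff]
    intro c hc b
    have h4 : bf W X D f (∑ a, c a • e a) (e b) = 0 := by rw [hc]; simp
    rw [map_sum, LinearMap.sum_apply, Finset.sum_eq_single b] at h4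
    · obtain ⟨j, hj⟩ := h1 b
      obtain ⟨q, hq, hq'⟩ := h j _ hj (h2 b)
      rw [map_smul, LinearMap.smul_apply, hq', smul_eq_mul] at h4
      rcases mul_eq_zero.1 h4 with h5 | h5
      · exact h5
      · exact absurd (by exact_mod_cast h5) hq.ne'
    · intro a _ hab
      rw [map_smul, LinearMap.smul_apply, h3 a b hab, smul_zero]
    · intro h0; exact absurd (Finset.mem_univ b) h0
  have hbd : ∀ m, Q m → m ≤ Module.finrank W.K (W.H X) := by
    rintro m ⟨e, h1, h2, h3⟩
    have := (hli m e h1 h2 h3).fintype_card_le_finrank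
    simpa using this
  have h0 : Q 0 := ⟨Fin.elim0, fun a => a.elim0, fun a => a.elim0, fun a => a.elim0⟩
  obtain ⟨m, hm, hm'⟩ : ∃ m, Q m ∧ ¬ Q (m + 1) := by
    by_contra hcon
    push Not at hcon
    have : ∀ m, Q m := by
      intro m
      induction m with
      | zero => exact h0
      | succ m ih => exact hcon m ih
    have := hbd _ (this (Module.finrank W.K (W.H X) + 1))
    omega
  obtain ⟨e, h1, h2, h3⟩ := hm
  have hq : ∀ a, ∃ q : ℚ, 0 < q ∧ bf W X D f (e a) (e a) = q := by
    intro a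
    obtain ⟨j, hj⟩ := h1 a
    exact h j _ hj (h2 a)
  choose q hq0 hq1 using hq
  refine ⟨m, e, q, fun a => (h1 a).elim fun j hj => AS.of hj, hq0, ?_⟩
  have key : ∀ j, ∀ x ∈ algClasses W X j,
      x = ∑ a, (bf W X D f x (e a) * ((q a : W.K)⁻¹)) • e a := by
    intro j x hx
    by_contra hne
    apply hm'
    set y := x - ∑ a, (bf W X D f x (e a) * ((q a : W.K)⁻¹)) • e a with hy
    have hy0 : y ≠ 0 := sub_ne_zero.2 hne
    have hterm : ∀ a, AS W X ((bf W X D f x (e a) * ((q a : W.K)⁻¹)) • e a) ∧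
        (bf W X D f x (e a) * ((q a : W.K)⁻¹)) • e a ∈ W.gr X (2 * j) := by
      intro a
      obtain ⟨i, hi⟩ := h1 a
      by_cases hij : i = j
      · subst hij
        obtain ⟨b, hb⟩ := G.fr.bf_rat (AS.of hx) (AS.of hi)
        refine ⟨?_, Submodule.smul_mem _ _ (alg_gr hi)⟩
        rw [hb, show ((b : W.K) * ((q a : W.K)⁻¹)) = ((b * (q a)⁻¹ : ℚ) : W.K) by push_cast; rfl]
        exact (AS.of hi).smul _
      · rw [G.fr.bf_deg (alg_gr hx) (alg_gr hi) (by omega), zero_mul, zero_smul]
        exact ⟨AS.zero, Submodule.zero_mem _⟩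
    have hsum : AS W X (∑ a, (bf W X D f x (e a) * ((q a : W.K)⁻¹)) • e a) :=
      AS.ratSub.sum _ (fun a _ => (hterm a).1)
    have hyA : AS W X y := by
      rw [hy, sub_eq_add_neg]
      exact (AS.of hx).add (AS.ratSub.neg hsum)
    have hyj : y ∈ algClasses W X j := by
      apply hyA.alg
      exact Submodule.sub_mem _ (alg_gr hx) (Submodule.sum_mem _ (fun a _ => (hterm a).2))
    have horth : ∀ b, bf W X D f y (e b) = 0 := by
      intro b
      rw [hy, map_sub, LinearMap.sub_apply, map_sum, LinearMap.sum_apply,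
        Finset.sum_eq_single b, map_smul, LinearMap.smul_apply, hq1, smul_eq_mul, mul_assoc,
        inv_mul_cancel₀, mul_one, sub_self]
      · exact_mod_cast (hq0 b).ne'
      · intro a _ hab
        rw [map_smul, LinearMap.smul_apply, h3 a b hab, smul_zero]
      · intro h0; exact absurd (Finset.mem_univ b) h0
    refine ⟨Fin.snoc e y, ?_, ?_, ?_⟩
    · intro a
      refine Fin.lastCases ?_ (fun a => ?_) a
      · rw [Fin.snoc_last]; exact ⟨j, hyj⟩
      · rw [Fin.snoc_castSucc]; exact h1 a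
    · intro a
      refine Fin.lastCases ?_ (fun a => ?_) a
      · rw [Fin.snoc_last]; exact hy0
      · rw [Fin.snoc_castSucc]; exact h2 a
    · intro a b
      refine Fin.lastCases ?_ (fun a => ?_) a
      · refine Fin.lastCases ?_ (fun b => ?_) b
        · intro hab; exact absurd rfl hab
        · intro _
          rw [Fin.snoc_last, Fin.snoc_castSucc]; exact horth b
      · refine Fin.lastCases ?_ (fun b => ?_) b
        · intro _
          rw [Fin.snoc_last, Fin.snoc_castSucc, bf_symm G hyA]; exact horth a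
        · intro hab
          rw [Fin.snoc_castSucc, Fin.snoc_castSucc]
          exact h3 a b (fun h => hab (by rw [h]))
  intro x y hy
  refine AS.ind (p := fun y =>
    bf W X D f (x - ∑ a, (bf W X D f x (e a) * ((q a : W.K)⁻¹)) • e a) y = 0) ?_ ?_ hy
  · intro j y hy
    have h4 : bf W X D f x y = ∑ a, bf W X D f y (e a) * ((q a : W.K)⁻¹) * bf W X D f x (e a) := by
      conv_lhs => rw [key j y hy]
      rw [map_sum]
      apply Finset.sum_congr rfl
      intro a _
      rw [map_smul, smul_eq_mul]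
    rw [map_sub, LinearMap.sub_apply, h4, map_sum, LinearMap.sum_apply, sub_eq_zero]
    apply Finset.sum_congr rfl
    intro a _
    obtain ⟨i, hi⟩ := h1 a
    rw [map_smul, LinearMap.smul_apply, smul_eq_mul, bf_symm G (AS.of hy)]
    ring
  · intro a b ha hb
    rw [map_add, ha, hb, add_zero]

end Pool.Agent.H846.Alt
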