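import Pool.Agent.H846.Alt.Span
import Pool.Agent.H846.Det.Spec

/-!
# Products with varieties whose cohomology is spanned by algebraic classes
-/

open CategoryTheory AlgebraicGeometry Finset

universe u v

namespace Pool.Agent.H846.Alt

open Pool.Agent.H914 Pool.Agent.H914.VarClass Pool.Agent.H914.VarClass.Obj
  Pool.Agent.H914.WeilCohomology Pool.Agent.H281R3.HT Pool.Agent.W552 Pool.Agent.W539.Ker
  Pool.Agent.R911.Iso Pool.Agent.H447 Pool.Agent.H846.Det Pool.Agent.H846.Hdt

variable {k : Type u} [Field k] {𝒱 : VarClass k} {ops : CycleOps 𝒱}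
  {W : WeilCohomology.{u, v} ops} {X Y : 𝒱.Obj} {D : X.Cycles} {f : Module.End W.K (W.H X)}
  {E : Y.Cycles} {g : Module.End W.K (W.H Y)}

/-- The trace in an orthogonal basis. -/
lemma trace_orth {m : ℕ} {e : Fin m → W.H X} {q : Fin m → ℚ} (T : Module.End W.K (W.H X))
    (h : ∀ x, T (x - ∑ a, (bf W X D f x (e a) * ((q a : W.K)⁻¹)) • e a) = 0) :
    LinearMap.trace W.K (W.H X) T = ∑ a, bf W X D f (T (e a)) (e a) * ((q a : W.K)⁻¹) := by
  have h1 : T = ∑ a, (((q a : W.K)⁻¹) • (bf W X D f).flip (e a)).smulRight (T (e a)) := by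
    apply LinearMap.ext
    intro x
    have h2 := h x
    rw [map_sub, sub_eq_zero] at h2
    rw [h2, map_sum, LinearMap.sum_apply]
    apply Finset.sum_congr rfl
    intro a _
    rw [map_smul, LinearMap.smulRight_apply, LinearMap.smul_apply, LinearMap.flip_apply,
      smul_eq_mul, mul_comm]
  conv_lhs => rw [h1]
  rw [map_sum]
  have h2 : ∀ a, LinearMap.trace W.K (W.H X)
      ((((q a : W.K)⁻¹) • (bf W X D f).flip (e a)).smulRight (T (e a))) =
        bf W X D f (T (e a)) (e a) * ((q a : W.K)⁻¹) := by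
    intro a
    rw [LinearMap.trace_smulRight, LinearMap.smul_apply, LinearMap.flip_apply, smul_eq_mul,
      mul_comm]
  exact Finset.sum_congr rfl (fun a _ => h2 a)

/-- If the cohomology of `X` is spanned by algebraic classes, there are no transcendental
classes. -/
lemma killsTranscendental_of_spanned (hs : SpannedByCycles W X) (Y : 𝒱.Obj) :
    KillsTranscendental W X Y := by
  intro j z _ x hx
  have h1 : x = 0 := by
    apply W.nondeg
    intro y
    refine Submodule.span_induction (p := fun y _ => W.tr X (x * y) = 0) ?_ ?_ ?_ ?_ (hs y)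
    · rintro _ ⟨i, w, hw, rfl⟩
      exact hx i w hw
    · rw [mul_zero, map_zero]
    · intro a b _ _ ha hb
      rw [mul_add, map_add, ha, hb, add_zero]
    · intro c a _ ha
      rw [mul_smul_comm, map_smul, ha, smul_zero]
  rw [h1, corrMap, map_zero]

/-- **Positivity for `X × Y`, if the algebraic correspondences from `X` to `Y` act as zero on the
transcendental cohomology of `X`.** -/
theorem pos_times (G : Gd W X D f) (G' : Gd W Y E g) (hX : Pos W X D f)
    (hs : KillsTranscendental W X Y) (hY : Pos W Y E g) :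
    Pos W (X.prod Y) (ops.pull (fst X Y) D + ops.pull (snd X Y) E) (extSum W f g) := by
  rintro l _ ⟨z, hz, rfl⟩ hc0
  set c := W.cl (X.prod Y) z with hcdef
  obtain ⟨m, e, q, heA, hq, he⟩ := exists_orth G hX
  have hcA : AS W (X.prod Y) c := AS.of ⟨z, hz, rfl⟩
  have hkill : ∀ x, W.corr c (x - ∑ a, (bf W X D f x (e a) * ((q a : W.K)⁻¹)) • e a) = 0 := by
    intro x
    refine hs l z hz _ ?_
    intro i w hw
    have hwA : AS W X (W.cl X w) := AS.of ⟨w, hw, rfl⟩
    have h1 := he x _ (G.fr.st_AS hwA)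
    rwa [bf_apply, G.st_st_apply] at h1
  obtain ⟨u', hu', hadj⟩ := G.adj G' (u := W.corr c) ⟨c, hcA, rfl⟩
  rw [← trace_adj G G' hcA hadj, trace_orth (u' ∘ₗ W.corr c) (fun x => by
    rw [LinearMap.comp_apply, hkill, map_zero])]
  have hne : ∃ a, W.corr c (e a) ≠ 0 := by
    by_contra hcon
    push Not at hcon
    apply hc0
    apply corr_inj
    apply LinearMap.ext
    intro x
    have h1 := hkill x
    rw [map_sub, sub_eq_zero] at h1
    rw [h1, map_sum, LinearMap.zero_apply]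
    apply Finset.sum_eq_zero
    intro a _
    rw [map_smul, hcon a, smul_zero]
  have key : ∀ a, ∃ r : ℚ, 0 ≤ r ∧ (W.corr c (e a) ≠ 0 → 0 < r) ∧
      bf W X D f ((u' ∘ₗ W.corr c) (e a)) (e a) = r := by
    intro a
    have h1 : bf W X D f ((u' ∘ₗ W.corr c) (e a)) (e a) =
        bf W Y E g (W.corr c (e a)) (W.corr c (e a)) := by
      rw [bf_symm G (heA a), hadj, LinearMap.comp_apply]
    rw [h1]
    by_cases h0 : W.corr c (e a) = 0
    · exact ⟨0, le_rfl, fun h => absurd h0 h, by rw [h0]; simp⟩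
    · obtain ⟨r, hr, hr'⟩ := hY.AS G' (hcA.corr (heA a)) h0
      exact ⟨r, hr.le, fun _ => hr, hr'⟩
  choose r hr0 hr1 hr using key
  refine ⟨∑ a, r a * (q a)⁻¹, ?_, ?_⟩
  · obtain ⟨a, ha⟩ := hne
    apply Finset.sum_pos'
    · intro a _
      exact mul_nonneg (hr0 a) (inv_nonneg.2 (hq a).le)
    · exact ⟨a, Finset.mem_univ a, mul_pos (hr1 a ha) (inv_pos.2 (hq a))⟩
  · rw [Rat.cast_sum]
    apply Finset.sum_congr rfl
    intro a _
    rw [hr a]
    push_cast
    rfl

/-- A product of polarized varieties satisfying the conjecture B satisfies it. -/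
theorem isLefschetz_prod {P Q : Polarized 𝒱} (hP : IsLefschetz W P) (hQ : IsLefschetz W Q) :
    IsLefschetz W (P.prod ops Q) := by
  obtain ⟨f, G⟩ := exists_gd hP.isCyc hP.hard hP.std
  obtain ⟨g, G'⟩ := exists_gd hQ.isCyc hQ.hard hQ.std
  have GP := gd_prod G G'
  exact ⟨GP.fr.hD, hardLefschetz_of_fr GP.fr, lefschetzB_of_fr GP.fr⟩

/-- The products `T 1 × (… × (T r × M))` satisfy the standard conjectures. -/
theorem HodgeProduct.holds {P : Polarized 𝒱} (h : HodgeProduct W P) :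
    IsLefschetz W P ∧ HodgeHolds W P := by
  induction h with
  | base hM h => exact ⟨hM, h⟩
  | @times T M hT h hs hM ih =>
    obtain ⟨f, G⟩ := exists_gd hT.isCyc hT.hard hT.std
    obtain ⟨g, G'⟩ := exists_gd ih.1.isCyc ih.1.hard ih.1.std
    refine ⟨isLefschetz_prod hT ih.1, ?_⟩
    have hs' : KillsTranscendental W T.X M.X :=
      hs.elim (fun h1 => killsTranscendental_of_spanned h1 _) id
    exact hodge_of_pos (P := T.prod ops M) (gd_prod G G')
      (pos_times G G' (pos_of_hodge G h) hs' (pos_of_hodge G' ih.2))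

/-- **Positivity from places.** -/
theorem pos_of_places {P : Polarized 𝒱} {f : Module.End W.K (W.H P.X)} (G : Gd W P.X P.D f)
    (h : ∀ j z, P.X.IsCyc j z → classOf W P.X z ≠ 0 → HasHodgePlace W P j z) :
    Pos W P.X P.D f := by
  rintro l _ ⟨z, hz, rfl⟩ hz0
  obtain ⟨k₀, _, 𝒱₀, ops₀, W₀, P₀, σ, s, z₀, hs, hP₀, hz₀, hzz⟩ := h l z hz hz0
  obtain ⟨hL₀, hH₀⟩ := hP₀.holds
  obtain ⟨f₀, G₀⟩ := exists_gd hL₀.isCyc hL₀.hard hL₀.std
  have hzz' : s (W.cl P.X z) = W₀.cl P₀.X z₀ := hzz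
  have h0 : W₀.cl P₀.X z₀ ≠ 0 := by
    rw [← hzz']
    intro h0
    apply hz0
    exact (map_eq_zero_iff s s.injective).1 h0
  obtain ⟨q, hq, hq'⟩ := pos_of_hodge G₀ hH₀ l _ ⟨z₀, hz₀, rfl⟩ h0
  refine ⟨q, hq, ?_⟩
  rw [← hzz', bf_spec hs G G₀] at hq'
  apply σ.injective
  rw [hq', map_ratCast]

end Pool.Agent.H846.Alt
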